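import Pool.Agent.H52.KB.NDC
import Pool.Agent.H89.KD.Stmts

/-!
# Modules NDL and NDS of board KD from the calculus of `ND`
-/

set_option autoImplicit false
set_option linter.unusedSectionVars false

open MeasureTheory Set Filter Topology
open scoped ContDiff

namespace Pool.Agent.H52.KB

open Pool.Agent.H84 Pool.Agent.H84.Sym Pool.Agent.H84.Sym.P2x Pool.Agent.H19.KL
open Pool.Agent.H84.Sym.C29 Pool.Agent.H84.Sym.P6
open Pool.Agent.H73.KG Pool.Agent.H85.KG

variable {E : Type} [NormedAddCommGroup E] [InnerProductSpace ℝ E]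
    [FiniteDimensional ℝ E] [MeasurableSpace E] [BorelSpace E]

/-- the two definitions of `ND` agree -/
theorem nd_eq (U ψ : E → ℝ) (l : List E) (s : ℝ) (θ : E) :
    H89.KD.ND U ψ l s θ = ND U ψ l s θ := by
  induction l generalizing θ with
  | nil => rw [ND_nil, H89.KD.ND_nil]
  | cons v l ih =>
    rw [ND_cons, H89.KD.ND_cons]
    congr 1
    funext θ
    exact ih θ

theorem cv_pw_zero {U : E → ℝ} {t : ℝ} (hU : PP U t) (f g : E → ℝ) :
    cv (pw U 0 0) f g = cv U f g := by
  rw [((qPWB E) U t hU).2.2]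

theorem nds_thm (E : Type) [NormedAddCommGroup E] [InnerProductSpace ℝ E]
    [FiniteDimensional ℝ E] [MeasurableSpace E] [BorelSpace E] : H89.KD.NDSStmt E := by
  intro U t hU ψ hψ l l' h
  rw [nd_eq, nd_eq]
  exact nd_perm hU hψ h le_rfl 0

theorem ndl_thm (E : Type) [NormedAddCommGroup E] [InnerProductSpace ℝ E]
    [FiniteDimensional ℝ E] [MeasurableSpace E] [BorelSpace E] : H89.KD.NDLStmt E := by
  intro U t hU
  refine ⟨fun f g l hf hg => ?_, fun c f l hf => ?_, fun c l hl => ?_, fun ψ v hψ => ?_⟩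
  · rw [nd_eq, nd_eq, nd_eq]
    exact nd_add_fun hU hf hg l le_rfl 0
  · rw [nd_eq, nd_eq]
    exact nd_smul_fun hU c hf l le_rfl 0
  · rw [nd_eq]
    obtain ⟨v, l', rfl⟩ := List.exists_cons_of_ne_nil hl
    exact nd_const_fun hU c v l' le_rfl 0
  · rw [nd_eq, nd_one hU hψ v le_rfl 0]
    exact cv_pw_zero hU ψ (li v)

end Pool.Agent.H52.KB
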