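import Pool.Agent.H73.KG.Stmts

/-!
# Iterated derivatives of posterior means

`ND U ψ [v1, ..., vm] s θ` is the derivative of the posterior mean of `ψ` with respect to the
natural parameter `θ` in the directions `v1, ..., vm`; this is the joint cumulant of `ψ` and the
linear functions `v1, ..., vm` under the posterior measure.
-/

set_option autoImplicit false

open MeasureTheory Set Filter Topology
open scoped ContDiff

namespace Pool.Agent.H52.KB

open Pool.Agent.H84 Pool.Agent.H84.Sym Pool.Agent.H84.Sym.P2x Pool.Agent.H19.KL
open Pool.Agent.H73.KG

variable {E : Type} [NormedAddCommGroup E] [InnerProductSpace ℝ E]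
    [FiniteDimensional ℝ E] [MeasurableSpace E] [BorelSpace E]

/-- iterated derivatives of the posterior mean of `ψ` -/
noncomputable def ND (U ψ : E → ℝ) : List E → ℝ → E → ℝ
  | [], s, θ => pm U s θ ψ
  | v :: l, s, θ => D v (fun θ => ND U ψ l s θ) θ

end Pool.Agent.H52.KB
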