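import Pool.Agent.H52.KB.NDC
import Pool.Agent.H55.KB.Defs

/-!
# The evolution of `ND` in terms of the splittings of a word of indices
-/

set_option autoImplicit false
set_option linter.unusedSectionVars false

open MeasureTheory Set Filter Topology
open scoped ContDiff

namespace Pool.Agent.H52.KB

open Pool.Agent.H84 Pool.Agent.H84.Sym Pool.Agent.H84.Sym.P2x Pool.Agent.H19.KL
open Pool.Agent.H84.Sym.C29 Pool.Agent.H84.Sym.P6
open Pool.Agent.H73.KG Pool.Agent.H85.KG

theorem LS_spl {α ι : Type} (f : List α → List α → ℝ) (e : ι → α) (l : List ι) :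
    LS f (l.map e) =
      ((H55.KB.spl l).map (fun p => f (p.1.map e) (p.2.map e))).sum := by
  induction l generalizing f with
  | nil => simp [LS_nil, H55.KB.spl]
  | cons a l ih =>
    rw [List.map_cons, LS_cons, ih, ih, H55.KB.spl, List.map_append, List.sum_append,
      List.map_map, List.map_map]
    rfl

variable {E : Type} [NormedAddCommGroup E] [InnerProductSpace ℝ E]
    [FiniteDimensional ℝ E] [MeasurableSpace E] [BorelSpace E]

/-- the evolution of `ND` along words in the basis vectors -/
theorem nd_gen_spl {ι : Type} [Fintype ι] (b : OrthonormalBasis ι ℝ E) {U ψ : E → ℝ} {t : ℝ}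
    (hU : PP U t) (hψ : GC ψ) (l : List ι) {s : ℝ} (hs : 0 < s) (θ : E) :
    gen b U (ND U ψ (l.map b)) s θ =
      H55.KB.gN (fun k u => ND U (li (b k)) (u.map b) s θ) (fun u => ND U ψ (u.map b) s θ) l := by
  rw [nd_gen b hU hψ _ hs θ, LS_spl]
  unfold H55.KB.gN
  congr 3
  funext p
  simp only [List.map_eq_nil_iff, List.map_cons]

end Pool.Agent.H52.KB
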