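import Pool.Agent.H35.KB.Stmts
import Pool.Agent.H52.KB.Bridge
import Pool.Agent.H49.KP.CVD

/-!
# Module NPB of board KB: first facts on cumulants along words
-/

set_option autoImplicit false
set_option linter.unusedSectionVars false

open MeasureTheory Set Filter Topology
open scoped ContDiff

namespace Pool.Agent.H52.KB

open Pool.Agent.H84 Pool.Agent.H84.Sym Pool.Agent.H84.Sym.P2x Pool.Agent.H19.KL
open Pool.Agent.H73.KG Pool.Agent.H20.KH
open Pool.Agent.H55.KB (ML)
open Pool.Agent.H35.KB (nx)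

variable {E : Type} [NormedAddCommGroup E] [InnerProductSpace ℝ E]
    [FiniteDimensional ℝ E] [MeasurableSpace E] [BorelSpace E] {U : E → ℝ} {t : ℝ}

/-- `ND` is a symmetric multilinear function -/
theorem nd_ml (hU : PP U t) {ψ : E → ℝ} (hψ : GC ψ) {s : ℝ} (hs : 0 ≤ s) (θ : E) :
    ML (fun l : List E => ND U ψ l s θ) where
  add u v l := nd_add_vec hU hψ [] u v l hs θ
  smul c u l := nd_smul_vec hU hψ [] c u l hs θ
  perm _ _ h := nd_perm hU hψ h hs θ

theorem nd_one_zero (hU : PP U t) {ψ : E → ℝ} (hψ : GC ψ) (v : E) :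
    ND U ψ [v] 0 0 = cv U ψ (li v) := by
  rw [nd_one hU hψ v le_rfl 0]
  exact cv_pw_zero hU ψ (li v)

/-- second order cumulants -/
theorem nd_two (hU : PP U t) {ψ : E → ℝ} (hψ : GC ψ) (v w : E) {s : ℝ} (hs : 0 ≤ s) (θ : E) :
    ND U ψ [v, w] s θ = cv (pw U s θ) ψ (fun x => (li v x - mn (pw U s θ) v) *
      (li w x - mn (pw U s θ) w)) := by
  obtain ⟨⟨C, hp⟩, -⟩ := id hU
  have hw : GC (li w : E → ℝ) := H85.KG.gc_lin w
  have hR := qRGP E U t hU
  have e3 : (fun θ => ND U ψ [w] s θ) = fun θ =>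
      pm U s θ (fun x => ψ x * li w x) - pm U s θ ψ * pm U s θ (li w) := by
    funext θ
    rw [nd_one hU hψ w hs θ, H85.KG.cv_pw hp hs]
  obtain ⟨c1, c2⟩ := (hR _ (hψ.mul hw)).2.1 s θ v hs
  obtain ⟨c3, c4⟩ := (hR _ hψ).2.1 s θ v hs
  obtain ⟨c5, c6⟩ := (hR _ hw).2.1 s θ v hs
  have e4 : (fun x => (li v x - mn (pw U s θ) v) * (li w x - mn (pw U s θ) w)) =
      fun x => (li w x - mn (pw U s θ) w) * (li v x - mn (pw U s θ) v) := by
    funext x
    ring
  rw [e4, H78.KP.CVD_t3 hp hs θ hψ w v, ND_cons, e3]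
  unfold D
  rw [(c1.hasFDerivAt.fun_sub (c3.hasFDerivAt.fun_mul c5.hasFDerivAt)).fderiv]
  simp only [sub_apply, add_apply, smul_apply, smul_eq_mul]
  rw [c2, c4, c6]
  ring

theorem nd_two_zero (hU : PP U t) {ψ : E → ℝ} (hψ : GC ψ) (v w : E) :
    ND U ψ [v, w] 0 0 = q2 U ψ v w := by
  rw [nd_two hU hψ v w le_rfl 0, ((qPWB E) U t hU).2.2]
  rfl

theorem nd_li_last (hU : PP U t) (u v : E) (l : List E) {s : ℝ} (hs : 0 ≤ s) (θ : E) :
    ND U (li u) (l ++ [v]) s θ = ND U (li v) (l ++ [u]) s θ := by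
  induction l generalizing θ with
  | nil =>
    obtain ⟨⟨C, hp⟩, -⟩ := id hU
    rw [List.nil_append, List.nil_append, nd_one hU (H85.KG.gc_lin u) v hs θ,
      nd_one hU (H85.KG.gc_lin v) u hs θ, H85.KG.cv_pw hp hs, H85.KG.cv_pw hp hs]
    have e : (fun x => li u x * li v x) = fun x => li v x * li u x := by
      funext x
      ring
    rw [e]
    ring
  | cons w l ih =>
    rw [List.cons_append, List.cons_append, ND_cons, ND_cons]
    congr 1
    funext θ
    exact ih θ

/-- symmetry between the linear function and the vectors -/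
theorem nd_li_swap (hU : PP U t) (u v : E) (l : List E) {s : ℝ} (hs : 0 ≤ s) (θ : E) :
    ND U (li u) (v :: l) s θ = ND U (li v) (u :: l) s θ := by
  have h1 : ND U (li u) (v :: l) s θ = ND U (li u) (l ++ [v]) s θ :=
    nd_perm hU (H85.KG.gc_lin u) (List.perm_append_singleton v l).symm hs θ
  have h2 : ND U (li v) (u :: l) s θ = ND U (li v) (l ++ [u]) s θ :=
    nd_perm hU (H85.KG.gc_lin v) (List.perm_append_singleton u l).symm hs θ
  rw [h1, h2]
  exact nd_li_last hU u v l hs θ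

theorem nd_li_sum {κ : Type} (S : Finset κ) (hU : PP U t) (e : κ → E) (u : κ → ℝ) (l : List E)
    {s : ℝ} (hs : 0 ≤ s) (θ : E) :
    ND U (li (∑ a ∈ S, u a • e a)) l s θ = ∑ a ∈ S, u a * ND U (li (e a)) l s θ := by
  classical
  induction S using Finset.induction_on with
  | empty =>
    have h0 : (li (0 : E) : E → ℝ) = fun x => (0:ℝ) * li (0 : E) x := by
      funext x
      unfold li
      rw [zero_mul]
      exact inner_zero_left _
    rw [Finset.sum_empty, Finset.sum_empty, h0, nd_smul_fun hU 0 (H85.KG.gc_lin (0:E)) l hs θ,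
      zero_mul]
  | insert a S ha ih =>
    have h1 : (li (∑ a ∈ insert a S, u a • e a) : E → ℝ) =
        fun x => u a * li (e a) x + li (∑ a ∈ S, u a • e a) x := by
      funext x
      rw [Finset.sum_insert ha]
      unfold li
      rw [inner_add_left, real_inner_smul_left]
    rw [h1, nd_add_fun hU ((GC.const (u a)).mul (H85.KG.gc_lin (e a)))
      (H85.KG.gc_lin _) l hs θ, ih, nd_smul_fun hU (u a) (H85.KG.gc_lin (e a)) l hs θ,
      Finset.sum_insert ha]

theorem npb_thm (E : Type) [NormedAddCommGroup E] [InnerProductSpace ℝ E]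
    [FiniteDimensional ℝ E] [MeasurableSpace E] [BorelSpace E] : H35.KB.NPBStmt E := by
  intro U t hU
  refine ⟨fun ψ hψ => nd_ml hU hψ le_rfl 0, fun ψ hψ v w => ⟨nd_one_zero hU hψ v,
    nd_two_zero hU hψ v w⟩, fun u v l => nd_li_swap hU u v l le_rfl 0,
    fun ι _ e u l => nd_li_sum Finset.univ hU e u l le_rfl 0, fun ι e a c d => ?_⟩
  unfold nx
  refine ⟨nd_li_swap hU (e a) (e c) [] le_rfl 0, ?_, nd_one_zero hU (H85.KG.gc_lin (e a)) (e c)⟩
  rw [List.map_cons, List.map_cons, List.map_nil, List.map_cons, List.map_cons, List.map_nil,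
    nd_swap hU (H85.KG.gc_lin (e a)) (e c) (e d) [] le_rfl 0,
    nd_li_swap hU (e a) (e d) [e c] le_rfl 0,
    nd_swap hU (H85.KG.gc_lin (e d)) (e a) (e c) [] le_rfl 0]

end Pool.Agent.H52.KB
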