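import Pool.Agent.H52.KB.PA

/-!
# Calculus of iterated derivatives of posterior means

`ND U ψ l` is regular, symmetric in the word `l`, multilinear, and
`gen (ND U ψ l) = - ∑ ND U (b k) S * ND U ψ (b k :: T)` over all splittings of `l` in two words
`S ≠ []` and `T` (`LS` is the sum over the splittings).
-/

set_option autoImplicit false
set_option linter.unusedSectionVars false

open MeasureTheory Set Filter Topology
open scoped ContDiff

namespace Pool.Agent.H52.KB

open Pool.Agent.H84 Pool.Agent.H84.Sym Pool.Agent.H84.Sym.P2x Pool.Agent.H19.KL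
open Pool.Agent.H84.Sym.C29 Pool.Agent.H84.Sym.P6
open Pool.Agent.H73.KG Pool.Agent.H85.KG

variable {E : Type} [NormedAddCommGroup E] [InnerProductSpace ℝ E]
    [FiniteDimensional ℝ E] [MeasurableSpace E] [BorelSpace E]

/-- equal, for `s ≥ 0`, to a polynomial in posterior means -/
def PAe (U : E → ℝ) (F : ℝ → E → ℝ) : Prop := ∃ G, PA U G ∧ ∀ s θ, 0 ≤ s → F s θ = G s θ

namespace PAe

variable {U : E → ℝ} {t : ℝ} {F G : ℝ → E → ℝ}

theorem of (h : PA U F) : PAe U F := ⟨F, h, fun _ _ _ => rfl⟩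

theorem mean {F : E → ℝ} (hF : GC F) : PAe U (fun s θ => pm U s θ F) := of (PA.mean F hF)

theorem const (c : ℝ) : PAe U (fun _ _ => c) := of (PA.const c)

theorem congr (hF : PAe U F) (h : ∀ s θ, 0 ≤ s → G s θ = F s θ) : PAe U G := by
  obtain ⟨H, h1, h2⟩ := hF
  exact ⟨H, h1, fun s θ hs => (h s θ hs).trans (h2 s θ hs)⟩

theorem add (hF : PAe U F) (hG : PAe U G) : PAe U (fun s θ => F s θ + G s θ) := by
  obtain ⟨F', h1, h2⟩ := hF
  obtain ⟨G', h3, h4⟩ := hG
  exact ⟨_, h1.add h3, fun s θ hs => congrArg₂ (· + ·) (h2 s θ hs) (h4 s θ hs)⟩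

theorem mul (hF : PAe U F) (hG : PAe U G) : PAe U (fun s θ => F s θ * G s θ) := by
  obtain ⟨F', h1, h2⟩ := hF
  obtain ⟨G', h3, h4⟩ := hG
  exact ⟨_, h1.mul h3, fun s θ hs => congrArg₂ (· * ·) (h2 s θ hs) (h4 s θ hs)⟩

theorem neg (hF : PAe U F) : PAe U (fun s θ => -F s θ) := by
  obtain ⟨F', h1, h2⟩ := hF
  exact ⟨_, h1.neg, fun s θ hs => congrArg (- ·) (h2 s θ hs)⟩

theorem sub (hF : PAe U F) (hG : PAe U G) : PAe U (fun s θ => F s θ - G s θ) := by
  obtain ⟨F', h1, h2⟩ := hF
  obtain ⟨G', h3, h4⟩ := hG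
  exact ⟨_, h1.sub h3, fun s θ hs => congrArg₂ (· - ·) (h2 s θ hs) (h4 s θ hs)⟩

theorem sum {κ : Type} (S : Finset κ) {F : κ → ℝ → E → ℝ} (hF : ∀ k, PAe U (F k)) :
    PAe U (fun s θ => ∑ k ∈ S, F k s θ) := by
  choose G h1 h2 using hF
  exact ⟨_, PA.sum S h1, fun s θ hs => Finset.sum_congr rfl fun k _ => h2 k s θ hs⟩

theorem fn {G : ℝ → E → ℝ} (h : ∀ s θ, 0 ≤ s → F s θ = G s θ) {s : ℝ} (hs : 0 ≤ s) :
    F s = G s := funext fun θ => h s θ hs

theorem rg (hF : PAe U F) (hU : PP U t) : RG F := by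
  obtain ⟨G, h1, h2⟩ := hF
  obtain ⟨-, -, -, -, -, -, hcongr⟩ := qRGC E
  exact hcongr _ _ (h1.rg hU) fun s θ hs => (h2 s θ hs).symm

theorem diff (hF : PAe U F) (hU : PP U t) {s : ℝ} (hs : 0 ≤ s) (θ : E) :
    DifferentiableAt ℝ (F s) θ := by
  obtain ⟨G, h1, h2⟩ := hF
  rw [fn h2 hs]
  exact h1.diff hU hs θ

theorem D (hF : PAe U F) (hU : PP U t) (v : E) : PAe U (fun s θ => Sym.D v (F s) θ) := by
  obtain ⟨G, h1, h2⟩ := hF
  obtain ⟨G', h3, h4⟩ := h1.deriv hU v
  refine ⟨G', h3, fun s θ hs => ?_⟩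
  show Sym.D v (F s) θ = _
  rw [fn h2 hs]
  exact h4 s θ hs

theorem comm (hF : PAe U F) (hU : PP U t) (v w : E) {s : ℝ} (hs : 0 ≤ s) (θ : E) :
    Sym.D v (fun θ => Sym.D w (F s) θ) θ = Sym.D w (fun θ => Sym.D v (F s) θ) θ := by
  obtain ⟨G, h1, h2⟩ := hF
  rw [fn h2 hs]
  exact h1.comm hU v w hs θ

theorem gen_fn {ι : Type} [Fintype ι] (b : OrthonormalBasis ι ℝ E)
    (h : ∀ s θ, 0 ≤ s → F s θ = G s θ) {s : ℝ} (hs : 0 < s) :
    (fun θ => gen b U F s θ) = fun θ => gen b U G s θ :=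
  funext fun θ => PA.gen_congr b h hs θ

/-- the generator of a polynomial in posterior means -/
theorem gen {ι : Type} [Fintype ι] (b : OrthonormalBasis ι ℝ E) (hF : PAe U F) (hU : PP U t) :
    ∃ G', PA U G' ∧ ∀ s θ, 0 < s → H73.KG.gen b U F s θ = G' s θ := by
  obtain ⟨G, h1, h2⟩ := hF
  obtain ⟨G', h3, h4⟩ := h1.gen b hU
  exact ⟨G', h3, fun s θ hs => (PA.gen_congr b h2 hs θ).trans (h4 s θ hs)⟩

/-- the commutator of the generator and a derivative -/
theorem gen_D {ι : Type} [Fintype ι] (b : OrthonormalBasis ι ℝ E) (hF : PAe U F) (hU : PP U t)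
    (v : E) {s : ℝ} (hs : 0 < s) (θ : E) :
    H73.KG.gen b U (fun s θ => Sym.D v (F s) θ) s θ =
      Sym.D v (fun θ => H73.KG.gen b U F s θ) θ -
      ∑ k, cv (pw U s θ) (li v) (li (b k)) * Sym.D (b k) (F s) θ := by
  obtain ⟨G, h1, h2⟩ := hF
  have e1 : H73.KG.gen b U (fun s θ => Sym.D v (F s) θ) s θ =
      H73.KG.gen b U (fun s θ => Sym.D v (G s) θ) s θ :=
    PA.gen_congr b (fun s θ hs => by
      show Sym.D v (F s) θ = _
      rw [fn h2 hs]) hs θ
  rw [e1, h1.gen_D b hU v hs θ, gen_fn b h2 hs, fn h2 hs.le]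

/-- the product rule for the generator -/
theorem gen_mul {ι : Type} [Fintype ι] (b : OrthonormalBasis ι ℝ E) (hF : PAe U F)
    (hG : PAe U G) (hU : PP U t) {s : ℝ} (hs : 0 < s) (θ : E) :
    H73.KG.gen b U (fun s θ => F s θ * G s θ) s θ = F s θ * H73.KG.gen b U G s θ +
      G s θ * H73.KG.gen b U F s θ + ∑ i, Sym.D (b i) (F s) θ * Sym.D (b i) (G s) θ := by
  obtain ⟨-, -, -, -, hgen, -, -⟩ := qRGC E
  exact (hgen _ _ U (hF.rg hU) (hG.rg hU) ι b s θ hs).2

theorem gen_add {ι : Type} [Fintype ι] (b : OrthonormalBasis ι ℝ E) (hF : PAe U F)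
    (hG : PAe U G) (hU : PP U t) {s : ℝ} (hs : 0 < s) (θ : E) :
    H73.KG.gen b U (fun s θ => F s θ + G s θ) s θ =
      H73.KG.gen b U F s θ + H73.KG.gen b U G s θ := by
  obtain ⟨-, -, -, -, hgen, -, -⟩ := qRGC E
  exact (hgen _ _ U (hF.rg hU) (hG.rg hU) ι b s θ hs).1

theorem gen_cmul {ι : Type} [Fintype ι] (b : OrthonormalBasis ι ℝ E) (c : ℝ) (hF : PAe U F)
    (hU : PP U t) {s : ℝ} (hs : 0 < s) (θ : E) :
    H73.KG.gen b U (fun s θ => c * F s θ) s θ = c * H73.KG.gen b U F s θ := by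
  rw [gen_mul b (PAe.const c) hF hU hs θ, gen_const]
  simp [D_const]

theorem gen_sum {ι κ : Type} [Fintype ι] (b : OrthonormalBasis ι ℝ E) (S : Finset κ)
    {F : κ → ℝ → E → ℝ} (hF : ∀ k, PAe U (F k)) (hU : PP U t) {s : ℝ} (hs : 0 < s) (θ : E) :
    H73.KG.gen b U (fun s θ => ∑ k ∈ S, F k s θ) s θ = ∑ k ∈ S, H73.KG.gen b U (F k) s θ := by
  classical
  induction S using Finset.induction_on with
  | empty =>
    simp only [Finset.sum_empty]
    exact gen_const b U 0 s θ
  | insert a S ha ih =>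
    simp only [Finset.sum_insert ha]
    rw [gen_add b (hF a) (PAe.sum S hF) hU hs θ, ih]

end PAe

section splits

variable {α : Type*}

/-- sum over all splittings of a word in two words -/
def LS : (List α → List α → ℝ) → List α → ℝ
  | f, [] => f [] []
  | f, v :: l => LS (fun S T => f (v :: S) T) l + LS (fun S T => f S (v :: T)) l

theorem LS_nil (f : List α → List α → ℝ) : LS f [] = f [] [] := rfl

theorem LS_cons (f : List α → List α → ℝ) (v : α) (l : List α) :
    LS f (v :: l) = LS (fun S T => f (v :: S) T) l + LS (fun S T => f S (v :: T)) l := rfl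

theorem LS_congr {f g : List α → List α → ℝ} (h : ∀ S T, f S T = g S T) (l : List α) :
    LS f l = LS g l := by
  rw [show f = g from funext fun S => funext fun T => h S T]

theorem LS_add (f g : List α → List α → ℝ) (l : List α) :
    LS (fun S T => f S T + g S T) l = LS f l + LS g l := by
  induction l generalizing f g with
  | nil => rfl
  | cons v l ih =>
    rw [LS_cons, LS_cons, LS_cons, ih, ih]
    ring

theorem LS_zero (l : List α) : LS (fun _ _ => 0) l = 0 := by
  induction l with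
  | nil => rfl
  | cons v l ih => rw [LS_cons, ih, add_zero]

theorem LS_single (g : List α → ℝ) (l : List α) :
    LS (fun S T => if S = [] then g T else 0) l = g l := by
  induction l generalizing g with
  | nil => simp [LS_nil]
  | cons v l ih =>
    rw [LS_cons, ih (fun T => g (v :: T))]
    have e : LS (fun S T => if (v :: S) = [] then g T else 0) l = 0 := by
      rw [LS_congr (g := fun _ _ => 0) (fun S T => by simp)]
      exact LS_zero l
    rw [e, zero_add]

theorem LS_split (f : List α → List α → ℝ) (l : List α) :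
    LS f l = f [] l + LS (fun S T => if S = [] then 0 else f S T) l := by
  rw [← LS_single (fun T => f [] T) l, ← LS_add]
  refine LS_congr (fun S T => ?_) l
  split_ifs with h
  · rw [h, add_zero]
  · rw [zero_add]

end splits

section nd

variable {U ψ : E → ℝ} {t : ℝ}

theorem ND_nil (U ψ : E → ℝ) (s : ℝ) (θ : E) : ND U ψ [] s θ = pm U s θ ψ := by
  simp only [ND]

theorem ND_cons (U ψ : E → ℝ) (v : E) (l : List E) (s : ℝ) (θ : E) :
    ND U ψ (v :: l) s θ = D v (fun θ => ND U ψ l s θ) θ := by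
  simp only [ND]

/-- `ND` is a polynomial in posterior means -/
theorem nd_pa (hU : PP U t) (hψ : GC ψ) (l : List E) : PAe U (ND U ψ l) := by
  induction l with
  | nil => exact (PAe.mean hψ).congr fun s θ _ => ND_nil U ψ s θ
  | cons v l ih => exact (ih.D hU v).congr fun s θ _ => ND_cons U ψ v l s θ

theorem nd_rg (hU : PP U t) (hψ : GC ψ) (l : List E) : RG (ND U ψ l) := (nd_pa hU hψ l).rg hU

theorem nd_diff (hU : PP U t) (hψ : GC ψ) (l : List E) {s : ℝ} (hs : 0 ≤ s) (θ : E) :
    DifferentiableAt ℝ (ND U ψ l s) θ := (nd_pa hU hψ l).diff hU hs θ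

/-- the derivative of `ND` -/
theorem nd_D (v : E) (l : List E) (s : ℝ) (θ : E) :
    D v (ND U ψ l s) θ = ND U ψ (v :: l) s θ := (ND_cons U ψ v l s θ).symm

theorem nd_swap (hU : PP U t) (hψ : GC ψ) (v w : E) (l : List E) {s : ℝ} (hs : 0 ≤ s) (θ : E) :
    ND U ψ (v :: w :: l) s θ = ND U ψ (w :: v :: l) s θ := by
  have h := (nd_pa hU hψ l).comm hU v w hs θ
  rw [ND_cons, ND_cons]
  have e : ∀ u : E, (fun θ => ND U ψ (u :: l) s θ) = fun θ => D u (ND U ψ l s) θ :=
    fun u => funext fun θ => (nd_D u l s θ).symm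
  rw [e w, e v]
  exact h

/-- `ND` is symmetric -/
theorem nd_perm (hU : PP U t) (hψ : GC ψ) {l l' : List E} (h : l.Perm l') {s : ℝ} (hs : 0 ≤ s)
    (θ : E) : ND U ψ l s θ = ND U ψ l' s θ := by
  induction h generalizing θ with
  | nil => rfl
  | cons v _ ih =>
    rw [ND_cons, ND_cons]
    congr 1
    funext θ
    exact ih θ
  | swap v w l => exact nd_swap hU hψ w v l hs θ
  | trans _ _ ih1 ih2 => exact (ih1 θ).trans (ih2 θ)

theorem nd_add_vec (hU : PP U t) (hψ : GC ψ) (l : List E) (v w : E) (l' : List E) {s : ℝ}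
    (hs : 0 ≤ s) (θ : E) : ND U ψ (l ++ (v + w) :: l') s θ =
      ND U ψ (l ++ v :: l') s θ + ND U ψ (l ++ w :: l') s θ := by
  induction l generalizing θ with
  | nil =>
    simp only [List.nil_append, ND_cons]
    unfold D
    rw [map_add]
  | cons u l ih =>
    simp only [List.cons_append]
    rw [ND_cons, ND_cons, ND_cons, ← D_add (nd_diff hU hψ _ hs θ) (nd_diff hU hψ _ hs θ)]
    congr 1
    funext θ
    exact ih θ

theorem nd_smul_vec (hU : PP U t) (hψ : GC ψ) (l : List E) (c : ℝ) (v : E) (l' : List E) {s : ℝ}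
    (hs : 0 ≤ s) (θ : E) : ND U ψ (l ++ (c • v) :: l') s θ = c * ND U ψ (l ++ v :: l') s θ := by
  induction l generalizing θ with
  | nil =>
    simp only [List.nil_append, ND_cons]
    unfold D
    rw [map_smul, smul_eq_mul]
  | cons u l ih =>
    simp only [List.cons_append]
    have e : (fun θ => ND U ψ (l ++ (c • v) :: l') s θ) = fun θ =>
        c * ND U ψ (l ++ v :: l') s θ := funext fun θ => ih θ
    rw [ND_cons, ND_cons, e, D_mul (differentiableAt_const _) (nd_diff hU hψ _ hs θ), D_const]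
    have e2 : D u (ND U ψ (l ++ v :: l') s) θ = D u (fun θ => ND U ψ (l ++ v :: l') s θ) θ := rfl
    rw [e2]
    ring

theorem nd_sum_vec {κ : Type} (S : Finset κ) (hU : PP U t) (hψ : GC ψ) (l : List E) (c : κ → ℝ)
    (v : κ → E) (l' : List E) {s : ℝ} (hs : 0 ≤ s) (θ : E) :
    ND U ψ (l ++ (∑ k ∈ S, c k • v k) :: l') s θ =
      ∑ k ∈ S, c k * ND U ψ (l ++ v k :: l') s θ := by
  classical
  induction S using Finset.induction_on with
  | empty =>
    simp only [Finset.sum_empty]
    have h := nd_smul_vec hU hψ l 0 (0:E) l' hs θ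
    rw [zero_mul, smul_zero] at h
    exact h
  | insert a S ha ih =>
    rw [Finset.sum_insert ha, Finset.sum_insert ha, nd_add_vec hU hψ l _ _ l' hs θ,
      nd_smul_vec hU hψ l _ _ l' hs θ, ih]

theorem nd_add_fun (hU : PP U t) {ψ φ : E → ℝ} (hψ : GC ψ) (hφ : GC φ) (l : List E) {s : ℝ}
    (hs : 0 ≤ s) (θ : E) :
    ND U (fun x => ψ x + φ x) l s θ = ND U ψ l s θ + ND U φ l s θ := by
  obtain ⟨⟨C, hp⟩, -⟩ := id hU
  induction l generalizing θ with
  | nil =>
    rw [ND_nil, ND_nil, ND_nil]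
    exact pm_add hp hs θ hψ hφ
  | cons u l ih =>
    rw [ND_cons, ND_cons, ND_cons, ← D_add (nd_diff hU hψ _ hs θ) (nd_diff hU hφ _ hs θ)]
    congr 1
    funext θ
    exact ih θ

theorem nd_smul_fun (hU : PP U t) (c : ℝ) {ψ : E → ℝ} (hψ : GC ψ) (l : List E) {s : ℝ}
    (hs : 0 ≤ s) (θ : E) : ND U (fun x => c * ψ x) l s θ = c * ND U ψ l s θ := by
  obtain ⟨⟨C, hp⟩, -⟩ := id hU
  induction l generalizing θ with
  | nil =>
    rw [ND_nil, ND_nil]
    exact pm_const_mul hp hs θ c ψ
  | cons u l ih =>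
    have e : (fun θ => ND U (fun x => c * ψ x) l s θ) = fun θ => c * ND U ψ l s θ :=
      funext fun θ => ih θ
    rw [ND_cons, ND_cons, e, D_mul (differentiableAt_const _) (nd_diff hU hψ _ hs θ), D_const]
    have e2 : D u (ND U ψ l s) θ = D u (fun θ => ND U ψ l s θ) θ := rfl
    rw [e2]
    ring

theorem nd_const_fun (hU : PP U t) (c : ℝ) (v : E) (l : List E) {s : ℝ} (hs : 0 ≤ s) (θ : E) :
    ND U (fun _ => c) (v :: l) s θ = 0 := by
  obtain ⟨⟨C, hp⟩, -⟩ := id hU
  induction l generalizing v θ with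
  | nil =>
    have e : (fun θ => ND U (fun _ => c) [] s θ) = fun _ => c := by
      funext θ
      rw [ND_nil]
      exact pm_const hp hs θ c
    rw [ND_cons, e, D_const]
  | cons u l ih =>
    have e : (fun θ => ND U (fun _ => c) (u :: l) s θ) = fun _ => 0 := funext fun θ => ih u θ
    rw [ND_cons, e, D_const]

/-- the posterior of a posterior -/
theorem pm_pw (U ψ : E → ℝ) (s r : ℝ) (θ η : E) :
    pm (pw U s θ) r η ψ = pm U (s + r) (θ + η) ψ := by
  have hZ : ∀ F : E → ℝ, ZF (pw U s θ) r η F =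
      Real.exp (-Real.log (ZF U s θ (fun _ => 1))) * ZF U (s + r) (θ + η) F := by
    intro F
    unfold ZF
    rw [← integral_const_mul]
    congr 1
    funext x
    have e : -tp (pw U s θ) r η x = -Real.log (ZF U s θ (fun _ => 1)) +
        -tp U (s + r) (θ + η) x := by
      unfold pw tp
      rw [inner_add_left]
      ring
    rw [e, Real.exp_add]
    unfold ZF
    ring
  unfold pm
  rw [hZ, hZ]
  exact mul_div_mul_left _ _ (Real.exp_pos _).ne'

theorem nd_pw' (U ψ : E → ℝ) (l : List E) (s r : ℝ) (θ η : E) :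
    ND (pw U s θ) ψ l r η = ND U ψ l (s + r) (θ + η) := by
  induction l generalizing η with
  | nil => rw [ND_nil, ND_nil, pm_pw]
  | cons v l ih =>
    rw [ND_cons, ND_cons]
    have e : (fun η => ND (pw U s θ) ψ l r η) = fun η => ND U ψ l (s + r) (θ + η) :=
      funext fun η => ih η
    rw [e]
    unfold D
    rw [fderiv_comp_add_left]

/-- `ND` is a function of the posterior measure -/
theorem nd_pw (U ψ : E → ℝ) (l : List E) (s : ℝ) (θ : E) :
    ND (pw U s θ) ψ l 0 0 = ND U ψ l s θ := by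
  rw [nd_pw', add_zero, add_zero]

theorem nd_one (hU : PP U t) (hψ : GC ψ) (v : E) {s : ℝ} (hs : 0 ≤ s) (θ : E) :
    ND U ψ [v] s θ = cv (pw U s θ) ψ (li v) := by
  have h := ((qRGP E U t hU ψ hψ).2.1 s θ v hs).2
  rw [ND_cons]
  have e : (fun θ => ND U ψ [] s θ) = fun θ => pm U s θ ψ := funext fun θ => ND_nil U ψ s θ
  rw [e]
  exact h

/-- the evolution of `ND` -/
theorem nd_gen {ι : Type} [Fintype ι] (b : OrthonormalBasis ι ℝ E) (hU : PP U t) (hψ : GC ψ)
    (l : List E) {s : ℝ} (hs : 0 < s) (θ : E) :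
    gen b U (ND U ψ l) s θ = -LS (fun S T => if S = [] then 0 else
      ∑ k, ND U (li (b k)) S s θ * ND U ψ (b k :: T) s θ) l := by
  have hs0 := hs.le
  obtain ⟨⟨C, hp⟩, -⟩ := id hU
  induction l generalizing θ with
  | nil =>
    have h := (qRGP E U t hU ψ hψ).2.2 ι b s θ hs
    have e : gen b U (ND U ψ []) s θ = gen b U (fun s θ => pm U s θ ψ) s θ :=
      PA.gen_congr b (fun s θ _ => ND_nil U ψ s θ) hs θ
    rw [e, h, LS_nil]
    simp
  | cons v l ih =>
    have e0 : gen b U (ND U ψ (v :: l)) s θ =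
        gen b U (fun s θ => D v (ND U ψ l s) θ) s θ :=
      PA.gen_congr b (fun s θ _ => ND_cons U ψ v l s θ) hs θ
    have e1 : (fun θ => gen b U (ND U ψ l) s θ) = fun θ =>
        -LS (fun S T => if S = [] then 0 else
          ∑ k, ND U (li (b k)) S s θ * ND U ψ (b k :: T) s θ) l := funext fun θ => ih θ
    have hdP : ∀ (S T : List E) (θ : E), DifferentiableAt ℝ (fun θ =>
        ∑ k, ND U (li (b k)) S s θ * ND U ψ (b k :: T) s θ) θ := fun S T θ =>
      DifferentiableAt.fun_sum fun k _ =>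
        (nd_diff hU (gc_lin (b k)) S hs0 θ).fun_mul (nd_diff hU hψ (b k :: T) hs0 θ)
    have hDP : ∀ (S T : List E) (θ : E), D v (fun θ =>
        ∑ k, ND U (li (b k)) S s θ * ND U ψ (b k :: T) s θ) θ =
        (∑ k, ND U (li (b k)) (v :: S) s θ * ND U ψ (b k :: T) s θ) +
        ∑ k, ND U (li (b k)) S s θ * ND U ψ (b k :: v :: T) s θ := by
      intro S T θ
      rw [D_sum Finset.univ fun k => (nd_diff hU (gc_lin (b k)) S hs0 θ).fun_mul
        (nd_diff hU hψ (b k :: T) hs0 θ), ← Finset.sum_add_distrib]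
      refine Finset.sum_congr rfl fun k _ => ?_
      have g1 : D v (fun θ => ND U (li (b k)) S s θ * ND U ψ (b k :: T) s θ) θ =
          ND U (li (b k)) S s θ * D v (ND U ψ (b k :: T) s) θ +
            ND U ψ (b k :: T) s θ * D v (ND U (li (b k)) S s) θ :=
        D_mul (nd_diff hU (gc_lin (b k)) S hs0 θ) (nd_diff hU hψ (b k :: T) hs0 θ) v
      rw [g1, nd_D, nd_D, nd_swap hU hψ v (b k) T hs0 θ]
      ring
    have hDL : ∀ (P : E → List E → List E → ℝ) (Q : List E → List E → ℝ) (m : List E) (θ : E),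
        (∀ S T, DifferentiableAt ℝ (fun θ => P θ S T) θ) →
        (∀ S T, D v (fun θ => P θ S T) θ = Q S T) →
        DifferentiableAt ℝ (fun θ => LS (P θ) m) θ ∧ D v (fun θ => LS (P θ) m) θ = LS Q m := by
      intro P Q m θ
      induction m generalizing P Q with
      | nil =>
        intro h1 h2
        exact ⟨h1 [] [], h2 [] []⟩
      | cons u m ihm =>
        intro h1 h2
        obtain ⟨a1, a2⟩ := ihm (fun θ S T => P θ (u :: S) T) (fun S T => Q (u :: S) T)
          (fun S T => h1 (u :: S) T) (fun S T => h2 (u :: S) T)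
        obtain ⟨c1, c2⟩ := ihm (fun θ S T => P θ S (u :: T)) (fun S T => Q S (u :: T))
          (fun S T => h1 S (u :: T)) (fun S T => h2 S (u :: T))
        refine ⟨a1.fun_add c1, ?_⟩
        have k := D_add a1 c1 v
        rw [a2, c2] at k
        exact k
    obtain ⟨-, e2⟩ := hDL (fun θ S T => if S = [] then 0 else
        ∑ k, ND U (li (b k)) S s θ * ND U ψ (b k :: T) s θ)
      (fun S T => if S = [] then 0 else
        (∑ k, ND U (li (b k)) (v :: S) s θ * ND U ψ (b k :: T) s θ) +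
        ∑ k, ND U (li (b k)) S s θ * ND U ψ (b k :: v :: T) s θ) l θ
      (fun S T => by
        by_cases h : S = []
        · simp only [h, if_true]
          exact differentiableAt_const _
        · simp only [h, if_false]
          exact hdP S T θ)
      (fun S T => by
        by_cases h : S = []
        · simp only [h, if_true]
          exact D_const 0 v θ
        · simp only [h, if_false]
          exact hDP S T θ)
    rw [e0, (nd_pa hU hψ l).gen_D b hU v hs θ, e1, D_neg, e2]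
    have e3 : ∑ k, cv (pw U s θ) (li v) (li (b k)) * D (b k) (ND U ψ l s) θ =
        ∑ k, ND U (li (b k)) [v] s θ * ND U ψ (b k :: l) s θ := by
      refine Finset.sum_congr rfl fun k _ => ?_
      rw [nd_D, nd_one hU (gc_lin (b k)) v hs0 θ, cv_pw hp hs0, cv_pw hp hs0]
      have e : (fun x : E => li v x * li (b k) x) = fun x => li (b k) x * li v x := by
        funext x
        ring
      rw [e]
      ring
    rw [e3, LS_cons, LS_split (fun S T => if (v :: S) = [] then 0 else
      ∑ k, ND U (li (b k)) (v :: S) s θ * ND U ψ (b k :: T) s θ)]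
    have e4 : LS (fun S T => if S = [] then 0 else
        (∑ k, ND U (li (b k)) (v :: S) s θ * ND U ψ (b k :: T) s θ) +
        ∑ k, ND U (li (b k)) S s θ * ND U ψ (b k :: v :: T) s θ) l =
        LS (fun S T => if S = [] then 0 else
          if (v :: S) = [] then 0 else
            ∑ k, ND U (li (b k)) (v :: S) s θ * ND U ψ (b k :: T) s θ) l +
        LS (fun S T => if S = [] then 0 else
          ∑ k, ND U (li (b k)) S s θ * ND U ψ (b k :: v :: T) s θ) l := by
      rw [← LS_add]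
      refine LS_congr (fun S T => ?_) l
      by_cases h : S = []
      · simp [h]
      · simp [h]
    rw [e4]
    have e5 : (if (v :: ([] : List E)) = [] then (0:ℝ) else
        ∑ k, ND U (li (b k)) [v] s θ * ND U ψ (b k :: l) s θ) =
        ∑ k, ND U (li (b k)) [v] s θ * ND U ψ (b k :: l) s θ := by simp
    rw [e5]
    ring

end nd

end Pool.Agent.H52.KB
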