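import Pool.Agent.H52.KB.NDDef
import Pool.Agent.H85.KG.AAG
import Pool.Agent.H85.KG.RGP
import Pool.Agent.H83.KG.RGC
import Pool.Agent.H33.KG.BAS
import Pool.Agent.H62.KG.ZSM
import Pool.Agent.H85.KG.PMG

/-!
# Polynomials in posterior means

`PA U G`: the function `G` of `(s, θ)` is a polynomial in posterior means `pm U s θ F`.  Such
functions are regular, the class is closed under derivatives in `θ` and under the generator, the
derivatives in `θ` commute, and the commutator of the generator and a derivative is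
`-∑ k, A v k D k`.
-/

set_option autoImplicit false
set_option linter.unusedSectionVars false

open MeasureTheory Set Filter Topology
open scoped ContDiff

namespace Pool.Agent.H52.KB

open Pool.Agent.H84 Pool.Agent.H84.Sym Pool.Agent.H84.Sym.P2x Pool.Agent.H19.KL
open Pool.Agent.H84.Sym.C29 Pool.Agent.H84.Sym.P6
open Pool.Agent.H73.KG Pool.Agent.H85.KG

variable {E : Type} [NormedAddCommGroup E] [InnerProductSpace ℝ E]
    [FiniteDimensional ℝ E] [MeasurableSpace E] [BorelSpace E]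

variable (E) in
theorem qRGC : RGCStmt E := rgc_thm E

variable (E) in
theorem qPMG : PMGStmt E := pmg_thm E (bas_thm E) (zsm_thm E)

variable (E) in
theorem qRGP : RGPStmt E := rgp_thm E (zsm_thm E) (qPMG E)

variable (E) in
theorem qPWB : PWBStmt E := pwb_thm E

/-- polynomials in posterior means -/
inductive PA (U : E → ℝ) : (ℝ → E → ℝ) → Prop
  | mean (F : E → ℝ) (hF : GC F) : PA U (fun s θ => pm U s θ F)
  | const (c : ℝ) : PA U (fun _ _ => c)
  | add {F G : ℝ → E → ℝ} : PA U F → PA U G → PA U (fun s θ => F s θ + G s θ)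
  | mul {F G : ℝ → E → ℝ} : PA U F → PA U G → PA U (fun s θ => F s θ * G s θ)

namespace PA

variable {U : E → ℝ} {t : ℝ} {F G : ℝ → E → ℝ}

theorem cmul (c : ℝ) (hF : PA U F) : PA U (fun s θ => c * F s θ) := (PA.const c).mul hF

theorem neg (hF : PA U F) : PA U (fun s θ => -F s θ) := by
  have h := cmul (-1) hF
  have e : (fun s θ => (-1:ℝ) * F s θ) = fun s θ => -F s θ := by
    funext s θ
    ring
  rwa [e] at h

theorem sub (hF : PA U F) (hG : PA U G) : PA U (fun s θ => F s θ - G s θ) := by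
  have h := hF.add hG.neg
  have e : (fun s θ => F s θ + -G s θ) = fun s θ => F s θ - G s θ := by
    funext s θ
    ring
  rwa [e] at h

theorem sum {κ : Type} (S : Finset κ) {F : κ → ℝ → E → ℝ} (hF : ∀ k, PA U (F k)) :
    PA U (fun s θ => ∑ k ∈ S, F k s θ) := by
  classical
  induction S using Finset.induction_on with
  | empty =>
    simp only [Finset.sum_empty]
    exact PA.const 0
  | insert a S ha ih =>
    simp only [Finset.sum_insert ha]
    exact (hF a).add ih

/-- polynomials in posterior means are regular -/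
theorem rg (hU : PP U t) (hG : PA U G) : RG G := by
  obtain ⟨hc, hadd, hmul, -, -, -, -⟩ := qRGC E
  induction hG with
  | mean F hF => exact (qRGP E U t hU F hF).1
  | const c => exact hc c
  | add _ _ ih1 ih2 => exact hadd _ _ ih1 ih2
  | mul _ _ ih1 ih2 => exact hmul _ _ ih1 ih2

theorem diff (hU : PP U t) (hG : PA U G) {s : ℝ} (hs : 0 ≤ s) (θ : E) :
    DifferentiableAt ℝ (G s) θ := by
  induction hG with
  | mean F hF => exact ((qRGP E U t hU F hF).2.1 s θ 0 hs).1
  | const c => exact differentiableAt_const c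
  | add _ _ ih1 ih2 => exact ih1.add ih2
  | mul _ _ ih1 ih2 => exact ih1.mul ih2

theorem D_mean (hU : PP U t) {F : E → ℝ} (hF : GC F) {s : ℝ} (hs : 0 ≤ s) (v θ : E) :
    D v (fun θ => pm U s θ F) θ = pm U s θ (fun x => F x * li v x) - pm U s θ F *
      pm U s θ (li v) := by
  have h := ((qRGP E U t hU F hF).2.1 s θ v hs).2
  obtain ⟨⟨C, hp⟩, -⟩ := hU
  unfold D
  rw [h, cv_pw hp hs]

end PA

theorem D_const (c : ℝ) (v θ : E) : D v (fun _ => c) θ = 0 := by
  unfold D
  simp

theorem D_add {f g : E → ℝ} {θ : E} (hf : DifferentiableAt ℝ f θ) (hg : DifferentiableAt ℝ g θ)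
    (v : E) : D v (fun θ => f θ + g θ) θ = D v f θ + D v g θ := by
  unfold D
  rw [(hf.hasFDerivAt.fun_add hg.hasFDerivAt).fderiv]
  rfl

theorem D_mul {f g : E → ℝ} {θ : E} (hf : DifferentiableAt ℝ f θ) (hg : DifferentiableAt ℝ g θ)
    (v : E) : D v (fun θ => f θ * g θ) θ = f θ * D v g θ + g θ * D v f θ := by
  unfold D
  rw [(hf.hasFDerivAt.fun_mul hg.hasFDerivAt).fderiv]
  rfl

theorem D_neg {f : E → ℝ} (v θ : E) : D v (fun θ => -f θ) θ = -D v f θ := by
  unfold D
  rw [fderiv_fun_neg]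
  rfl

theorem D_sum {κ : Type} (S : Finset κ) {f : κ → E → ℝ} {θ : E}
    (hf : ∀ k, DifferentiableAt ℝ (f k) θ) (v : E) :
    D v (fun θ => ∑ k ∈ S, f k θ) θ = ∑ k ∈ S, D v (f k) θ := by
  unfold D
  rw [fderiv_fun_sum fun k _ => hf k]
  simp

theorem gen_const {ι : Type} [Fintype ι] (b : OrthonormalBasis ι ℝ E) (U : E → ℝ) (c s : ℝ)
    (θ : E) : gen b U (fun _ _ => c) s θ = 0 := by
  unfold gen
  have h1 : ∀ v : E, D v (fun _ : E => c) = fun _ => 0 := fun v => funext fun θ => D_const c v θ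
  simp [h1, D_const]

namespace PA

variable {U : E → ℝ} {t : ℝ} {F G : ℝ → E → ℝ}

/-- closure under derivatives -/
theorem deriv (hU : PP U t) (hG : PA U G) (v : E) :
    ∃ G', PA U G' ∧ ∀ s θ, 0 ≤ s → D v (G s) θ = G' s θ := by
  induction hG with
  | mean F hF =>
    refine ⟨_, (PA.mean _ (hF.mul (gc_lin v))).sub ((PA.mean F hF).mul (PA.mean _ (gc_lin v))),
      fun s θ hs => D_mean hU hF hs v θ⟩
  | const c => exact ⟨_, PA.const 0, fun s θ _ => D_const c v θ⟩
  | add hF hG ih1 ih2 =>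
    obtain ⟨F', h1, h1'⟩ := ih1
    obtain ⟨G', h2, h2'⟩ := ih2
    refine ⟨_, h1.add h2, fun s θ hs => ?_⟩
    rw [D_add (hF.diff hU hs θ) (hG.diff hU hs θ), h1' s θ hs, h2' s θ hs]
  | @mul F G hF hG ih1 ih2 =>
    obtain ⟨F', h1, h1'⟩ := ih1
    obtain ⟨G', h2, h2'⟩ := ih2
    refine ⟨_, (hF.mul h2).add (hG.mul h1), fun s θ hs => ?_⟩
    rw [D_mul (hF.diff hU hs θ) (hG.diff hU hs θ), h1' s θ hs, h2' s θ hs]

/-- the derivative is differentiable -/
theorem diff_D (hU : PP U t) (hG : PA U G) (v : E) {s : ℝ} (hs : 0 ≤ s) (θ : E) :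
    DifferentiableAt ℝ (fun θ => D v (G s) θ) θ := by
  obtain ⟨G', h1, h2⟩ := hG.deriv hU v
  have e : (fun θ => D v (G s) θ) = G' s := funext fun θ => h2 s θ hs
  rw [e]
  exact h1.diff hU hs θ

theorem rg_D (hU : PP U t) (hG : PA U G) (v : E) : RG (fun s θ => D v (G s) θ) := by
  obtain ⟨G', h1, h2⟩ := hG.deriv hU v
  obtain ⟨-, -, -, -, -, -, hcongr⟩ := qRGC E
  exact hcongr _ _ (h1.rg hU) fun s θ hs => (h2 s θ hs).symm

/-- derivatives commute -/
theorem comm (hU : PP U t) (hG : PA U G) (v w : E) {s : ℝ} (hs : 0 ≤ s) (θ : E) :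
    D v (fun θ => D w (G s) θ) θ = D w (fun θ => D v (G s) θ) θ := by
  induction hG with
  | mean F hF =>
    have key : ∀ v w : E, D v (fun θ => D w (fun θ => pm U s θ F) θ) θ =
        (pm U s θ (fun x => F x * li w x * li v x) - pm U s θ (fun x => F x * li w x) *
          pm U s θ (li v)) - (pm U s θ F * (pm U s θ (fun x => li w x * li v x) -
          pm U s θ (li w) * pm U s θ (li v)) + pm U s θ (li w) *
          (pm U s θ (fun x => F x * li v x) - pm U s θ F * pm U s θ (li v))) := by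
      intro v w
      have e : (fun θ => D w (fun θ => pm U s θ F) θ) = fun θ =>
          pm U s θ (fun x => F x * li w x) + -(pm U s θ F * pm U s θ (li w)) := by
        funext θ
        rw [D_mean hU hF hs w θ]
        ring
      have d1 := (PA.mean (U := U) _ (hF.mul (gc_lin w))).diff hU hs θ
      have d2 := (PA.mean (U := U) _ hF).diff hU hs θ
      have d3 := (PA.mean (U := U) _ (gc_lin w)).diff hU hs θ
      rw [e, D_add d1 (d2.fun_mul d3).fun_neg, D_neg, D_mul d2 d3,
        D_mean hU (hF.mul (gc_lin w)) hs, D_mean hU (gc_lin w) hs, D_mean hU hF hs]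
      ring
    have e1 : (fun x : E => F x * li w x * li v x) = fun x => F x * li v x * li w x := by
      funext x
      ring
    have e2 : (fun x : E => li w x * li v x) = fun x => li v x * li w x := by
      funext x
      ring
    rw [key v w, key w v, e1, e2]
    ring
  | const c =>
    have h1 : ∀ v : E, (fun θ => D v (fun _ : E => c) θ) = fun _ => 0 :=
      fun v => funext fun θ => D_const c v θ
    rw [h1, h1, D_const, D_const]
  | @add F G hF hG ih1 ih2 =>
    have e : ∀ v : E, (fun θ => D v (fun θ => F s θ + G s θ) θ) = fun θ =>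
        D v (F s) θ + D v (G s) θ := fun v => funext fun θ =>
      D_add (hF.diff hU hs θ) (hG.diff hU hs θ) v
    rw [e v, e w, D_add (hF.diff_D hU w hs θ) (hG.diff_D hU w hs θ),
      D_add (hF.diff_D hU v hs θ) (hG.diff_D hU v hs θ), ih1, ih2]
  | @mul F G hF hG ih1 ih2 =>
    have e : ∀ v : E, (fun θ => D v (fun θ => F s θ * G s θ) θ) = fun θ =>
        F s θ * D v (G s) θ + G s θ * D v (F s) θ := fun v => funext fun θ =>
      D_mul (hF.diff hU hs θ) (hG.diff hU hs θ) v
    have f1 := hF.diff hU hs θ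
    have g1 := hG.diff hU hs θ
    have f2 := fun v => hF.diff_D hU v hs θ
    have g2 := fun v => hG.diff_D hU v hs θ
    rw [e v, e w, D_add (f1.fun_mul (g2 w)) (g1.fun_mul (f2 w)),
      D_add (f1.fun_mul (g2 v)) (g1.fun_mul (f2 v)), D_mul f1 (g2 w), D_mul g1 (f2 w),
      D_mul f1 (g2 v), D_mul g1 (f2 v), ih1, ih2]
    ring

/-- closure under the generator -/
theorem gen {ι : Type} [Fintype ι] (b : OrthonormalBasis ι ℝ E) (hU : PP U t) (hG : PA U G) :
    ∃ G', PA U G' ∧ ∀ s θ, 0 < s → gen b U G s θ = G' s θ := by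
  obtain ⟨hc, hadd, hmul, -, hgen, -, -⟩ := qRGC E
  induction hG with
  | mean F hF =>
    exact ⟨_, PA.const 0, fun s θ hs => (qRGP E U t hU F hF).2.2 ι b s θ hs⟩
  | const c => exact ⟨_, PA.const 0, fun s θ _ => gen_const b U c s θ⟩
  | @add F G hF hG ih1 ih2 =>
    obtain ⟨F', h1, h1'⟩ := ih1
    obtain ⟨G', h2, h2'⟩ := ih2
    refine ⟨_, h1.add h2, fun s θ hs => ?_⟩
    rw [(hgen _ _ U (hF.rg hU) (hG.rg hU) ι b s θ hs).1, h1' s θ hs, h2' s θ hs]
  | @mul F G hF hG ih1 ih2 =>
    obtain ⟨F', h1, h1'⟩ := ih1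
    obtain ⟨G', h2, h2'⟩ := ih2
    choose F1 hF1 hF1' using fun i => hF.deriv hU (b i)
    choose G1 hG1 hG1' using fun i => hG.deriv hU (b i)
    refine ⟨_, ((hF.mul h2).add (hG.mul h1)).add
      (PA.sum Finset.univ fun i => (hF1 i).mul (hG1 i)), fun s θ hs => ?_⟩
    rw [(hgen _ _ U (hF.rg hU) (hG.rg hU) ι b s θ hs).2, h1' s θ hs, h2' s θ hs]
    congr 1
    exact Finset.sum_congr rfl fun i _ => by rw [hF1' i s θ hs.le, hG1' i s θ hs.le]

theorem gen_congr {ι : Type} [Fintype ι] (b : OrthonormalBasis ι ℝ E)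
    (h : ∀ s θ, 0 ≤ s → F s θ = G s θ) {s : ℝ} (hs : 0 < s) (θ : E) :
    H73.KG.gen b U F s θ = H73.KG.gen b U G s θ := by
  refine AAG_gen_congr b U ?_ (funext fun θ => h s θ hs.le)
  filter_upwards [Ioi_mem_nhds hs] with r hr
  exact h r θ (le_of_lt hr)

/-- the commutator of the generator and a derivative -/
theorem gen_D {ι : Type} [Fintype ι] (b : OrthonormalBasis ι ℝ E) (hU : PP U t) (hG : PA U G)
    (v : E) {s : ℝ} (hs : 0 < s) (θ : E) :
    H73.KG.gen b U (fun s θ => D v (G s) θ) s θ = D v (fun θ => H73.KG.gen b U G s θ) θ -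
      ∑ k, cv (pw U s θ) (li v) (li (b k)) * D (b k) (G s) θ := by
  obtain ⟨hc, hadd, hmul, -, hgen, -, hcongr⟩ := qRGC E
  obtain ⟨⟨C, hp⟩, -⟩ := id hU
  have hs0 := hs.le
  induction hG with
  | mean F hF =>
    have g1 : PA U (fun s θ => pm U s θ (fun x => F x * li v x)) :=
      PA.mean _ (hF.mul (gc_lin v))
    have g2 : PA U (fun s θ => pm U s θ F) := PA.mean _ hF
    have g3 : PA U (fun s θ => pm U s θ (li v)) := PA.mean _ (gc_lin v)
    have g4 : PA U (fun s θ => (-1:ℝ) * pm U s θ (li v)) := g3.cmul (-1)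
    have e1 : H73.KG.gen b U (fun s θ => D v (fun θ => pm U s θ F) θ) s θ =
        H73.KG.gen b U (fun s θ => pm U s θ (fun x => F x * li v x) +
          pm U s θ F * ((-1:ℝ) * pm U s θ (li v))) s θ := by
      refine gen_congr b (fun s θ hs => ?_) hs θ
      rw [D_mean hU hF hs v θ]
      ring
    have z1 := (qRGP E U t hU _ (hF.mul (gc_lin v))).2.2 ι b s θ hs
    have z2 := fun θ => (qRGP E U t hU _ hF).2.2 ι b s θ hs
    have z3 := (qRGP E U t hU _ (gc_lin v)).2.2 ι b s θ hs
    have z4 : H73.KG.gen b U (fun s θ => (-1:ℝ) * pm U s θ (li v)) s θ = 0 := by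
      rw [(hgen _ _ U (hc (-1)) (g3.rg hU) ι b s θ hs).2, gen_const, z3]
      simp [D_const]
    have e2 : (fun θ => H73.KG.gen b U (fun s θ => pm U s θ F) s θ) = fun _ => 0 :=
      funext fun θ => z2 θ
    rw [e1, (hgen _ _ U (g1.rg hU) ((g2.mul g4).rg hU) ι b s θ hs).1,
      (hgen _ _ U (g2.rg hU) (g4.rg hU) ι b s θ hs).2, z1, z2, z4, e2, D_const]
    have e3 : ∀ k, D (b k) (fun θ => (-1:ℝ) * pm U s θ (li v)) θ =
        -cv (pw U s θ) (li v) (li (b k)) := by
      intro k
      rw [D_mul (differentiableAt_const _) (g3.diff hU hs0 θ), D_const,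
        D_mean hU (gc_lin v) hs0, cv_pw hp hs0]
      ring
    rw [Finset.sum_congr rfl fun k _ => by rw [e3 k]]
    simp only [mul_neg, Finset.sum_neg_distrib]
    have e4 : ∑ k, D (b k) (fun θ => pm U s θ F) θ * cv (pw U s θ) (li v) (li (b k)) =
        ∑ k, cv (pw U s θ) (li v) (li (b k)) * D (b k) (fun θ => pm U s θ F) θ :=
      Finset.sum_congr rfl fun k _ => mul_comm _ _
    rw [e4]
    ring
  | const c =>
    have h1 : (fun (_ : ℝ) θ => D v (fun _ : E => c) θ) = fun _ _ => 0 := by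
      funext s θ
      exact D_const c v θ
    have h2 : (fun θ => H73.KG.gen b U (fun _ _ => c) s θ) = fun _ => 0 :=
      funext fun θ => gen_const b U c s θ
    have h3 : ∀ k, D (b k) (fun _ : E => c) θ = 0 := fun k => D_const c _ θ
    rw [h1, h2, gen_const, D_const]
    simp [h3]
  | @add F G hF hG ih1 ih2 =>
    have e1 : H73.KG.gen b U (fun s θ => D v (fun θ => F s θ + G s θ) θ) s θ =
        H73.KG.gen b U (fun s θ => D v (F s) θ + D v (G s) θ) s θ :=
      gen_congr b (fun s θ hs => D_add (hF.diff hU hs θ) (hG.diff hU hs θ) v) hs θ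
    have e2 : (fun θ => H73.KG.gen b U (fun s θ => F s θ + G s θ) s θ) = fun θ =>
        H73.KG.gen b U F s θ + H73.KG.gen b U G s θ := funext fun θ =>
      (hgen _ _ U (hF.rg hU) (hG.rg hU) ι b s θ hs).1
    obtain ⟨F', f1, f2⟩ := hF.gen b hU
    obtain ⟨G', g1, g2⟩ := hG.gen b hU
    have dF : DifferentiableAt ℝ (fun θ => H73.KG.gen b U F s θ) θ := by
      rw [show (fun θ => H73.KG.gen b U F s θ) = F' s from funext fun θ => f2 s θ hs]
      exact f1.diff hU hs0 θ
    have dG : DifferentiableAt ℝ (fun θ => H73.KG.gen b U G s θ) θ := by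
      rw [show (fun θ => H73.KG.gen b U G s θ) = G' s from funext fun θ => g2 s θ hs]
      exact g1.diff hU hs0 θ
    rw [e1, (hgen _ _ U (hF.rg_D hU v) (hG.rg_D hU v) ι b s θ hs).1, e2, D_add dF dG, ih1, ih2]
    have e3 : ∀ k, D (b k) (fun θ => F s θ + G s θ) θ = D (b k) (F s) θ + D (b k) (G s) θ :=
      fun k => D_add (hF.diff hU hs0 θ) (hG.diff hU hs0 θ) (b k)
    simp only [e3, mul_add, Finset.sum_add_distrib]
    ring
  | @mul F G hF hG ih1 ih2 =>
    have e1 : H73.KG.gen b U (fun s θ => D v (fun θ => F s θ * G s θ) θ) s θ =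
        H73.KG.gen b U (fun s θ => F s θ * D v (G s) θ + G s θ * D v (F s) θ) s θ :=
      gen_congr b (fun s θ hs => D_mul (hF.diff hU hs θ) (hG.diff hU hs θ) v) hs θ
    have e2 : (fun θ => H73.KG.gen b U (fun s θ => F s θ * G s θ) s θ) = fun θ =>
        (F s θ * H73.KG.gen b U G s θ + G s θ * H73.KG.gen b U F s θ) +
          ∑ k, D (b k) (F s) θ * D (b k) (G s) θ := funext fun θ =>
      (hgen _ _ U (hF.rg hU) (hG.rg hU) ι b s θ hs).2
    obtain ⟨F', f1, f2⟩ := hF.gen b hU
    obtain ⟨G', g1, g2⟩ := hG.gen b hU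
    have dF : DifferentiableAt ℝ (fun θ => H73.KG.gen b U F s θ) θ := by
      rw [show (fun θ => H73.KG.gen b U F s θ) = F' s from funext fun θ => f2 s θ hs]
      exact f1.diff hU hs0 θ
    have dG : DifferentiableAt ℝ (fun θ => H73.KG.gen b U G s θ) θ := by
      rw [show (fun θ => H73.KG.gen b U G s θ) = G' s from funext fun θ => g2 s θ hs]
      exact g1.diff hU hs0 θ
    have dF1 := hF.diff hU hs0 θ
    have dG1 := hG.diff hU hs0 θ
    have dFD := fun v => hF.diff_D hU v hs0 θ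
    have dGD := fun v => hG.diff_D hU v hs0 θ
    have dS : ∀ k, DifferentiableAt ℝ (fun θ => D (b k) (F s) θ * D (b k) (G s) θ) θ :=
      fun k => (dFD (b k)).fun_mul (dGD (b k))
    have dSS : DifferentiableAt ℝ (fun θ => ∑ k, D (b k) (F s) θ * D (b k) (G s) θ) θ :=
      DifferentiableAt.fun_sum fun k _ => dS k
    have r1 := hF.rg hU
    have r2 := hG.rg hU
    have r3 := hF.rg_D hU v
    have r4 := hG.rg_D hU v
    rw [e1, (hgen _ _ U (hmul _ _ r1 r4) (hmul _ _ r2 r3) ι b s θ hs).1,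
      (hgen _ _ U r1 r4 ι b s θ hs).2, (hgen _ _ U r2 r3 ι b s θ hs).2, e2,
      D_add ((dF1.fun_mul dG).fun_add (dG1.fun_mul dF)) dSS,
      D_add (dF1.fun_mul dG) (dG1.fun_mul dF), D_mul dF1 dG, D_mul dG1 dF,
      D_sum Finset.univ dS, ih1, ih2]
    have e3 : ∀ k, D (b k) (fun θ => F s θ * G s θ) θ =
        F s θ * D (b k) (G s) θ + G s θ * D (b k) (F s) θ :=
      fun k => D_mul dF1 dG1 (b k)
    have e4 : ∀ k, D v (fun θ => D (b k) (F s) θ * D (b k) (G s) θ) θ =
        D (b k) (F s) θ * D (b k) (fun θ => D v (G s) θ) θ +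
          D (b k) (G s) θ * D (b k) (fun θ => D v (F s) θ) θ := by
      intro k
      rw [D_mul (dFD (b k)) (dGD (b k)), hF.comm hU v (b k) hs0, hG.comm hU v (b k) hs0]
    simp only [e3, e4, mul_add, Finset.sum_add_distrib, mul_sub, Finset.mul_sum]
    have e5 : ∑ k, cv (pw U s θ) (li v) (li (b k)) * (F s θ * D (b k) (G s) θ) =
        ∑ k, F s θ * (cv (pw U s θ) (li v) (li (b k)) * D (b k) (G s) θ) :=
      Finset.sum_congr rfl fun k _ => by ring
    have e6 : ∑ k, cv (pw U s θ) (li v) (li (b k)) * (G s θ * D (b k) (F s) θ) =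
        ∑ k, G s θ * (cv (pw U s θ) (li v) (li (b k)) * D (b k) (F s) θ) :=
      Finset.sum_congr rfl fun k _ => by ring
    rw [e5, e6]
    ring

end PA

end Pool.Agent.H52.KB
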